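import Mathlib
import Pool.Agent.Lib.helper12.Idem

namespace Pool.Agent.Results.MP_2c723a_al.Unequal

open Module Pool.Agent.Lib.helper12.Idem

section defs
variable {K V : Type} [Field K] [AddCommGroup V] [Module K V]

/-- the eigenspaces of `A` span `V` and can be ordered so that `B` acts tridiagonally -/
def Tri (A B : Module.End K V) : Prop :=
  ∃ (d : ℕ) (θ : Fin (d + 1) → K), Function.Injective θ ∧ (∀ i, A.eigenspace (θ i) ≠ ⊥) ∧
    (⨆ i, A.eigenspace (θ i)) = ⊤ ∧ ∀ i, (A.eigenspace (θ i)).map B ≤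
      ⨆ j, ⨆ (_ : j.val ≤ i.val + 1 ∧ i.val ≤ j.val + 1), A.eigenspace (θ j)

def Irr (A B : Module.End K V) : Prop :=
  ∀ W : Submodule K V, W.map A ≤ W → W.map B ≤ W → W = ⊥ ∨ W = ⊤

def TDPair (A B : Module.End K V) : Prop := Tri A B ∧ Tri B A ∧ Irr A B

/-- one tridiagonal relation -/
def Rel (β γ ρ : K) (A B : Module.End K V) : Prop :=
  A * (A ^ 2 * B - β • (A * B * A) + B * A ^ 2 - γ • (A * B + B * A) - ρ • B) =
    (A ^ 2 * B - β • (A * B * A) + B * A ^ 2 - γ • (A * B + B * A) - ρ • B) * A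

end defs

variable (K : Type) [Field K] [CharZero K] {n m : ℕ}

theorem index {A B : Matrix (Fin n) (Fin n) ℚ} {φ : Fin m → ℚ}
    {F : Fin m → Matrix (Fin n) (Fin n) ℚ} (h : ok B φ F) (ht : Tri (fK K n B) (fK K n A)) :
    ∃ x : Fin m → ℕ, Function.Injective x ∧
      ∀ k l, F l * A * F k ≠ 0 → x l ≤ x k + 1 ∧ x k ≤ x l + 1 := by
  obtain ⟨d, θ, h0, -, h3, h4⟩ := ht
  have kill : ∀ l μ, μ ≠ (φ l : K) → (fK K n B).eigenspace μ ≤ LinearMap.ker (fK K n (F l)) := by
    intro l μ hμ v hv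
    rw [Module.End.mem_eigenspace_iff] at hv
    have e : fK K n (F l) (fK K n B v) = (φ l : K) • fK K n (F l) v := by
      rw [← Module.End.mul_apply, ← map_mul, h.2.2.2.1, fK_smul]; rfl
    rw [hv, map_smul, ← sub_eq_zero, ← sub_smul] at e
    exact (smul_eq_zero.1 e).resolve_left (sub_ne_zero.2 hμ)
  have ex : ∀ l, ∃ i, θ i = (φ l : K) := fun l => by
    by_contra hc
    have : (⨆ i, (fK K n B).eigenspace (θ i)) ≤ LinearMap.ker (fK K n (F l)) :=
      iSup_le fun i => kill l _ fun e => hc ⟨i, e⟩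
    rw [h3, top_le_iff, LinearMap.ker_eq_top] at this
    exact h.2.2.2.2 l (fK_ne K this)
  choose x hx using ex
  have h1 : ∀ l i, θ i = (φ l : K) → i = x l := fun l i e => by
    apply h0
    rw [e, hx]
  refine ⟨fun l => (x l).val, fun k l e => inj K h ?_, fun k l hkl => ?_⟩
  · show (φ k : K) = φ l
    rw [← hx, ← hx, Fin.ext e]
  · by_contra hc
    apply hkl
    apply fK_ne K
    refine LinearMap.ext fun v => ?_
    have a := h4 (x k) ⟨fK K n (F k) v, by rw [hx]; exact proj_mem K h k v, rfl⟩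
    have b : (⨆ j : Fin (d + 1), ⨆ (_ : j.val ≤ (x k).val + 1 ∧ (x k).val ≤ j.val + 1),
        (fK K n B).eigenspace (θ j)) ≤ LinearMap.ker (fK K n (F l)) :=
      iSup_le fun j => iSup_le fun hj => kill l _ fun e => hc (by rw [h1 l j e] at hj; exact hj)
    rw [map_mul, map_mul]
    exact b a

theorem rel (β γ ρ : ℚ) (A B : Matrix (Fin n) (Fin n) ℚ)
    (h : A * (A * A * B - β • (A * B * A) + B * (A * A) - γ • (A * B + B * A) - ρ • B) =
      (A * A * B - β • (A * B * A) + B * (A * A) - γ • (A * B + B * A) - ρ • B) * A) :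
    Rel (β : K) (γ : K) (ρ : K) (fK K n A) (fK K n B) := by
  have := congrArg (fK K n) h
  simp only [map_add, map_sub, map_mul, fK_smul] at this
  unfold Rel
  simpa only [pow_two] using this

theorem diag {A : Matrix (Fin n) (Fin n) ℚ} {θ : Fin m → ℚ}
    {E : Fin m → Matrix (Fin n) (Fin n) ℚ} (h : ok A θ E) :
    (⨆ μ, (fK K n A).eigenspace μ) = ⊤ := by
  rw [eq_top_iff, ← sup_top K h]
  exact iSup_le fun i => le_iSup (fun μ => (fK K n A).eigenspace μ) _

def A1 : Matrix (Fin 3) (Fin 3) ℚ := !![1, 1, 1; 1, 1, 1; 1, 1, 1]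
def B1 : Matrix (Fin 3) (Fin 3) ℚ := !![1, 0, 0; 0, 0, 0; 0, 0, -1]
def E1 : Fin 2 → Matrix (Fin 3) (Fin 3) ℚ := ![(1/3 : ℚ) • A1, 1 - (1/3 : ℚ) • A1]
def A2 : Matrix (Fin 4) (Fin 4) ℚ := !![0, 3, 0, 4; 3, 0, 4, 0; 0, 4, 0, -3; 4, 0, -3, 0]
def B2 : Matrix (Fin 4) (Fin 4) ℚ := !![1, 0, 0, 0; 0, 2, 0, 0; 0, 0, -1, 0; 0, 0, 0, -2]
def E2 : Fin 2 → Matrix (Fin 4) (Fin 4) ℚ :=
  ![(1/2 : ℚ) • 1 + (1/10 : ℚ) • A2, (1/2 : ℚ) • 1 - (1/10 : ℚ) • A2]

theorem a1 : ok A1 ![3, 0] E1 := by unfold ok; decide +kernel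
theorem b1 : ok B1 ![1, 0, -1] fun i => Matrix.single i i 1 := by unfold ok; decide +kernel
theorem a2 : ok A2 ![5, -5] E2 := by unfold ok; decide +kernel
theorem b2 : ok B2 ![1, 2, -1, -2] fun i => Matrix.single i i 1 := by unfold ok; decide +kernel

theorem i1 : Irr (fK K 3 A1) (fK K 3 B1) :=
  irred K A1 B1 ![[(1, [])], [(-2, []), (1, [true]), (1, [false, true])],
      [(1, []), (-1, [false, true])]]
    ![[(1, [])], [(-2, []), (1, [true]), (1, [true, false])], [(1, []), (-1, [true, false])]]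
    [(1/2, [false, false]), (1/2, [false])]
    (fun i => Matrix.single i 0 1) (fun j => Matrix.single 0 j 1)
    (by decide +kernel) (by decide +kernel) (by decide +kernel)

theorem i2 : Irr (fK K 4 A2) (fK K 4 B2) :=
  irred K A2 B2 ![[(1, [])], [(1/6, [true]), (1/12, [false, true])],
      [(7/24, []), (1/48, [true, false, true])], [(1/8, [true]), (-1/16, [false, true])]]
    ![[(1, [])], [(1/6, [true]), (1/12, [true, false])],
      [(7/24, []), (1/48, [true, false, true])], [(1/8, [true]), (-1/16, [true, false])]]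
    [(-1/6, [false, false, false]), (-1/6, [false, false]), (2/3, [false]), (2/3, [])]
    (fun i => Matrix.single i 0 1) (fun j => Matrix.single 0 j 1)
    (by decide +kernel) (by decide +kernel) (by decide +kernel)

theorem result (K : Type) [Field K] [CharZero K] (β : K) (hβ : β = -1 ∨ β = 0) :
    ∃ (n : ℕ) (γ γ' ρ ρ' : K) (A B : Module.End K (Fin (n + 1) → K)),
      Rel β γ ρ A B ∧ Rel β γ' ρ' B A ∧ Irr A B ∧
      (⨆ μ, A.eigenspace μ) = ⊤ ∧ (⨆ μ, B.eigenspace μ) = ⊤ ∧ ¬ TDPair A B ∧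
      ∃ μ ν, finrank K (A.eigenspace μ) = 2 ∧ finrank K (B.eigenspace ν) = 1 := by
  rcases hβ with rfl | rfl
  · refine ⟨2, (0 : ℚ), (0 : ℚ), (9 : ℚ), (1 : ℚ), fK K 3 A1, fK K 3 B1, ?_, ?_, i1 K, diag K a1,
      diag K b1, fun h => ?_, _, _, rank K a1 1 2 (by decide +kernel),
      rank K b1 0 1 (by decide +kernel)⟩
    · simpa using rel K (-1) 0 9 A1 B1 (by decide +kernel)
    · simpa using rel K (-1) 0 1 B1 A1 (by decide +kernel)
    · obtain ⟨x, hx, hy⟩ := index K b1 h.2.1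
      have := hy 0 1 (by decide +kernel)
      have := hy 0 2 (by decide +kernel)
      have := hy 1 2 (by decide +kernel)
      have := hx.ne (by decide : (0 : Fin 3) ≠ 1)
      have := hx.ne (by decide : (0 : Fin 3) ≠ 2)
      have := hx.ne (by decide : (1 : Fin 3) ≠ 2)
      omega
  · refine ⟨3, (0 : ℚ), (0 : ℚ), (50 : ℚ), (5 : ℚ), fK K 4 A2, fK K 4 B2, ?_, ?_, i2 K, diag K a2,
      diag K b2, fun h => ?_, _, _, rank K a2 1 2 (by decide +kernel),
      rank K b2 0 1 (by decide +kernel)⟩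
    · simpa using rel K 0 0 50 A2 B2 (by decide +kernel)
    · simpa using rel K 0 0 5 B2 A2 (by decide +kernel)
    · obtain ⟨x, hx, hy⟩ := index K b2 h.2.1
      have := hy 0 1 (by decide +kernel)
      have := hy 1 2 (by decide +kernel)
      have := hy 2 3 (by decide +kernel)
      have := hy 3 0 (by decide +kernel)
      have := hx.ne (by decide : (0 : Fin 4) ≠ 1)
      have := hx.ne (by decide : (0 : Fin 4) ≠ 2)
      have := hx.ne (by decide : (0 : Fin 4) ≠ 3)
      have := hx.ne (by decide : (1 : Fin 4) ≠ 2)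
      have := hx.ne (by decide : (1 : Fin 4) ≠ 3)
      have := hx.ne (by decide : (2 : Fin 4) ≠ 3)
      omega

end Pool.Agent.Results.MP_2c723a_al.Unequal
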